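import Pool.Agent.Lib.MP_b5021c_nt.IfaceB

/-!
# Row B3C: the constant coefficient of a stable primitive element has no zero on the circle
-/

namespace Pool.Agent.B5.H82

open scoped LaurentPolynomial

theorem b3c (hB : B2cS) (hK : KerEvS) : B3S := by
  classical
  intro O _ _ _ _ L _ _ _ G hG hP z hz
  have h0 : G.coeff 0 ≠ 0 := hG.1
  have hall : ∀ a : L, evR z (G.coeff a) = 0 := by
    intro a
    obtain ⟨C, hC⟩ := (hB O L G hG).1 a
    have h1 := hC z
    rw [hz, norm_zero, mul_zero] at h1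
    exact norm_le_zero_iff.mp h1
  obtain ⟨c, hc, hdiv⟩ := hK O z (G.coeff.support.image fun a => G.coeff a)
    ⟨G.coeff 0, Finset.mem_image.2 ⟨0, Finsupp.mem_support_iff.2 h0, rfl⟩, h0⟩
    (by
      intro q hq
      obtain ⟨a, _, rfl⟩ := Finset.mem_image.1 hq
      exact hall a)
  have hd : ∀ a : L, c ∣ G.coeff a := by
    intro a
    by_cases ha : G.coeff a = 0
    · rw [ha]; exact dvd_zero c
    · exact hdiv _ (Finset.mem_image.2 ⟨a, Finsupp.mem_support_iff.2 ha, rfl⟩)
  choose g hg using hd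
  refine hc (hP c ?_)
  refine ⟨∑ a ∈ G.coeff.support, AddMonoidAlgebra.single a (g a), ?_⟩
  rw [Finset.mul_sum]
  have h2 : ∀ a ∈ G.coeff.support, cst c * AddMonoidAlgebra.single a (g a)
      = (AddMonoidAlgebra.single a (G.coeff a) : AO O L) := by
    intro a _
    rw [cst, AddMonoidAlgebra.single_mul_single, zero_add, ← hg a]
  rw [Finset.sum_congr rfl h2]
  apply AddMonoidAlgebra.ext
  apply Finsupp.ext
  intro b
  have h3 := DFunLike.congr_fun (Finsupp.sum_single G.coeff) b
  rw [← h3, Finsupp.sum]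
  simp only [AddMonoidAlgebra.coeff_sum, AddMonoidAlgebra.coeff_single]

end Pool.Agent.B5.H82
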