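import Pool.Agent.Lib.MP_b5021c_nt.IfaceB

/-!
# Row RST: restriction of a stable element to a saturated sublattice containing its support
-/

namespace Pool.Agent.B5.H82

open scoped LaurentPolynomial

variable {O : Type} [CommRing O] [Coef O] {L : Type} [AddCommGroup L]

theorem spec_res (z : Circle) (K : Submodule ℤ L) (G : AO O L) :
    spec z (res K G) = res K (spec z G) := by
  apply AddMonoidAlgebra.ext
  apply Finsupp.ext
  intro a
  rw [spec_coeff, res_coeff, res_coeff, spec_coeff]

theorem sl_res (K : Submodule ℤ L) (p : CA L) (hp : ∀ a ∈ p.coeff.support, a ∈ K)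
    (u : AddChar L Circle) (v : AddChar K Circle) (huv : ∀ a : K, u (a : L) = v a)
    (lam : L →+ ℤ) (mu : K →+ ℤ) (hlm : ∀ a : K, lam (a : L) = mu a) :
    sl v mu (res K p) = sl u lam p := by
  unfold sl
  have h := Finsupp.sum_comapDomain (fun a : K => (a : L)) p.coeff
    (fun a c => Polynomial.monomial (lam a).toNat (c * (u a : ℂ)))
    ⟨fun a ha => ha, fun _ _ _ _ h => Subtype.ext h, fun a ha => ⟨⟨a, hp a ha⟩, ha, rfl⟩⟩
  rw [← h]
  refine Finset.sum_congr rfl fun a _ => ?_
  simp only [Function.comp, hlm, huv]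
  rfl

theorem rst (_hS : StSpecS) (hE : ExtS) : ResStS := by
  intro O _ _ _ _ L _ _ _ G K hK hG
  obtain ⟨hu, hk⟩ := hE L K hK
  have hG' : ∀ (z : Circle), ∀ a ∈ (spec z G).coeff.support, a ∈ K := by
    intro z a ha
    apply hG
    change G.coeff a ≠ 0
    intro h0
    rw [Finsupp.mem_support_iff, spec_coeff, h0, map_zero] at ha
    exact ha rfl
  have hc0 : (res K G).coeff 0 = G.coeff 0 := res_coeff K G 0
  constructor
  · rintro ⟨h0, lam, hlam, hst⟩
    refine ⟨by rw [hc0]; exact h0, lam.comp (incl K), ?_, ?_⟩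
    · intro a ha ha0
      change 0 < lam (a : L)
      refine hlam a ?_ fun h => ha0 (Subtype.ext h)
      rw [Finsupp.mem_support_iff] at ha ⊢
      rwa [res_coeff] at ha
    · intro z hz u s hs
      obtain ⟨u', hu'⟩ := hu u
      rw [hc0] at hz
      rw [spec_res, sl_res K (spec z G) (hG' z) u' u hu' lam (lam.comp (incl K)) fun _ => rfl]
      exact hst z hz u' s hs
  · rintro ⟨h0, mu, hmu, hst⟩
    obtain ⟨lam, hlam⟩ := hk mu
    rw [hc0] at h0
    refine ⟨h0, lam, ?_, ?_⟩
    · intro a ha ha0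
      have haK : a ∈ K := hG a (Finsupp.mem_support_iff.1 ha)
      rw [show lam a = mu ⟨a, haK⟩ from hlam ⟨a, haK⟩]
      refine hmu ⟨a, haK⟩ ?_ fun h => ha0 (congrArg Subtype.val h)
      rw [Finsupp.mem_support_iff] at ha ⊢
      rw [res_coeff]
      exact ha
    · intro z hz u s hs
      have h := hst z (by rw [hc0]; exact hz) (u.compAddMonoidHom (incl K)) s hs
      rwa [spec_res, sl_res K (spec z G) (hG' z) u (u.compAddMonoidHom (incl K)) (fun _ => rfl) lam
        mu hlam] at h

end Pool.Agent.B5.H82
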