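import Pool.Agent.Lib.MP_b5021c_nt.IfaceS2

/-!
# Board b5, row T_JV2: the induction step in class V (sharp theorem)
-/

namespace Pool.Agent.B5.H82

open Pool.Agent.B5
open Pool.Agent.MP_b5021c_nt (Eis)

theorem bVS_mono : Monotone bVS := by
  intro x y hxy
  unfold bVS
  have h1 : max 1 x ≤ max 1 y := max_le_max le_rfl hxy
  have h2 : (0 : ℝ) < max 1 x := lt_of_lt_of_le one_pos (le_max_left _ _)
  have h3 := Real.log_le_log h2 h1
  linarith

theorem one_le_bVS (x : ℝ) : 1 ≤ bVS x := by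
  unfold bVS
  have h1 : (1 : ℝ) ≤ max 1 x := le_max_left _ _
  have h2 := Real.log_nonneg h1
  linarith

theorem exists_pivot {P L : Type} [AddCommGroup L] {phi : L →+ (P → ℤ)}
    (hinj : Function.Injective phi) {S : L} (hS : S ≠ 0) (hb : Bin phi S) :
    ∃ i0, co phi i0 S = 1 := by
  by_contra hcon
  push Not at hcon
  apply hS
  apply hinj
  rw [map_zero]
  funext i
  rcases hb i with h | h
  · exact h
  · exact absurd h (hcon i)

theorem adj_ne {O : Type} [CommRing O] [IsDomain O] [Coef O] {e₁ e₂ : (RO O)ˣ}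
    (h : Adj e₁ e₂) : e₁ ≠ e₂ := by
  rintro rfl
  obtain ⟨w, h1, -, h3⟩ := h
  have h4 : LaurentPolynomial.C w * (e₁ : RO O) = 1 * (e₁ : RO O) := by rw [one_mul, ← h1]
  have h5 : LaurentPolynomial.C w = (1 : RO O) := by
    have := e₁.isUnit.mul_right_cancel h4
    exact this
  have h6 : w = 1 := by
    have h7 : (LaurentPolynomial.C w : RO O) = LaurentPolynomial.C 1 := by rw [h5, map_one]
    have h8 := congrArg (fun p : RO O => p.coeff 0) h7
    simpa only [LaurentPolynomial.C_apply, if_true] using h8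
  rw [h6, map_one] at h3
  norm_num at h3

theorem jv2 (hE2 : E2S) (hNVE : NVES) (hFL : Fl2S) (hLSV : LsvS) (hCLL : CllS) (hCLO : CLOS)
    (hMV : MVS) (hNV1 : Nv1S) (hNV2 : Nv2S) : Jv2S := by
  intro P L _ _ _ _ _ phi D N hD hV hthree hB
  have htwo : 2 ≤ Module.finrank ℤ L := by omega
  obtain ⟨hz, -, -, -, -, hray⟩ := hE2 Eis P L phi D hD htwo
  have hMQ : M (D.coeff 0) = N := (((hMV Eis).1 N _ hV)).2
  have hN1 : 1 ≤ N := hV.1
  have hs3 : (0 : ℝ) < Real.sqrt 3 := Real.sqrt_pos.2 (by norm_num)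
  have hs3' : (1 : ℝ) < Real.sqrt 3 := by
    rw [Real.lt_sqrt (by norm_num)]; norm_num
  have hs3sq : Real.sqrt 3 ^ 2 = 3 := Real.sq_sqrt (by norm_num)
  -- the loads
  have hex : ∀ S : L, ∃ e : (RO Eis)ˣ, Ray D S →
      ((∃ e₂ : (RO Eis)ˣ, Adj e e₂ ∧ 1 / N ≤ ‖mn ((e : RO Eis) * D.coeff S) (D.coeff 0)‖ ∧
        ‖mn ((e : RO Eis) * D.coeff S) (D.coeff 0)‖ ≤ 1 / 4 ∧
        ∀ e' : (RO Eis)ˣ, (e' = e ∨ e' = e₂) →
          ∃ N' : ℝ, N' ^ 2 ≤ N ^ 2 - N + 1 ∧
            ClassV N' (D.coeff 0 + (e' : RO Eis) * D.coeff S)) ∨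
      (N / 4 < M (D.coeff S) ∧
        ∃ N' : ℝ, N' ≤ 4 / 5 * N ∧ ClassV N' (D.coeff 0 + (e : RO Eis) * D.coeff S))) := by
    intro S
    by_cases hS : Ray D S
    · rcases hLSV N (D.coeff 0) (D.coeff S) hV hS.1 hz (hray S hS).1 (hray S hS).2 with
        ⟨e₁, e₂, h12, h1, h2, h3⟩ | ⟨h0, e₁, N', hN', h1⟩
      · exact ⟨e₁, fun _ => Or.inl ⟨e₂, h12, h1, h2, h3⟩⟩
      · exact ⟨e₁, fun _ => Or.inr ⟨h0, N', hN', h1⟩⟩
    · exact ⟨1, fun h => absurd h hS⟩
  choose eta heta using hex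
  have hne : ∀ S, Ray D S → D.coeff 0 + (eta S : RO Eis) * D.coeff S ≠ 0 := by
    intro S hS
    rcases heta S hS with ⟨e₂, -, -, -, h⟩ | ⟨-, N', -, h⟩
    · obtain ⟨N', -, h'⟩ := h (eta S) (Or.inl rfl)
      exact ((hMV Eis).1 N' _ h').1
    · exact ((hMV Eis).1 N' _ h).1
  obtain ⟨S, g, hRS, hdim, hM, -, hother⟩ := hFL Eis P L phi D eta hD htwo hne
  obtain ⟨i0, hi0⟩ := exists_pivot hD.inj hRS.2.1 (hD.bin _ hRS.1)
  rcases heta S hRS with ⟨e₂, hadj, hr1, hr2, hlo⟩ | ⟨hMF, N₁, hN₁, hc₁⟩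
  · -- light
    have hNpos : (0 : ℝ) < N := by linarith
    have hN4 : 4 ≤ N := by
      have h1 : 1 / N ≤ 1 / 4 := le_trans hr1 hr2
      rw [div_le_div_iff₀ hNpos (by norm_num)] at h1
      linarith
    have hNs3 : Real.sqrt 3 ≤ N := by
      have : Real.sqrt 3 ≤ 4 := by
        rw [Real.sqrt_le_left (by norm_num)]; norm_num
      linarith
    have hne₂ : D.coeff 0 + (e₂ : RO Eis) * D.coeff S ≠ 0 := by
      obtain ⟨N', -, h'⟩ := hlo e₂ (Or.inr rfl)
      exact ((hMV Eis).1 N' _ h').1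
    have hfull : Module.finrank ℤ L = rk (supp (cl (co phi i0) S hi0 (eta S) D)) + 1 ∨
        Module.finrank ℤ L = rk (supp (cl (co phi i0) S hi0 e₂ D)) + 1 := by
      rcases Nat.eq_zero_or_pos g with hg | hg
      · left
        have h7 := hdim i0 hi0
        rw [hg] at h7
        simpa using h7
      · right
        exact hother hg e₂ (fun h => adj_ne hadj h.symm) i0 hi0
    obtain ⟨e, he, hcV, -⟩ := hCLL Eis P L phi D S i0 (eta S) e₂ hi0 hD hthree hRS hadj
      (hne S hRS) hne₂ hr2 hfull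
    obtain ⟨N', hN'2, hN'V⟩ := hlo e he
    have hN'1 : 1 ≤ N' := hN'V.1
    have hN'N : N' ≤ N - 1 / 5 := by
      by_contra hcon
      push Not at hcon
      nlinarith
    have h3 : Real.sqrt 3 ≤ N' ∨ N' = 1 := by
      rcases hNVE N' _ hN'V with h | h
      · exact Or.inr h
      · exact Or.inl h
    rcases hcV N' hN'V bVS bVS_mono one_le_bVS (fun x hx => hB x (le_trans hx hN'N)) with
      ⟨h1, h2⟩ | ⟨h1, h2, h4⟩ | ⟨m, N'', N₀, l, h1, ⟨Q₀, hQ₀⟩, h2, h4, h5, h6⟩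
    · rcases h3 with h3 | h3
      · have := (hNV1 N hNs3).1 N' h3 hN'2
        linarith
      · linarith
    · rcases h3 with h3 | h3
      · rw [hMQ] at h2
        have := (hNV1 N hNs3).2 N' _ h3 hr1 h2
        linarith
      · linarith
    · rw [hMQ] at h4 h5
      have hi3 : ∀ i, Real.sqrt 3 ≤ N'' i := by
        intro i
        obtain ⟨hi1, Q', hQ'⟩ := h1 i
        rcases hNVE _ _ hQ' with h | h
        · linarith
        · exact h
      have hp0 : 0 < ∏ i, N'' i := Finset.prod_pos fun i _ => lt_of_lt_of_le hs3 (hi3 i)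
      have hN₀1 : 1 ≤ N₀ := hQ₀.1
      have hple : ∏ i, N'' i ≤ N' := by
        rw [← h2]
        nlinarith
      have hp2 : (∏ i, N'' i) ^ 2 ≤ N ^ 2 - N + 1 := by nlinarith
      have hm1 : m = 1 → 2 * (∏ i, N'' i) ^ 2 ≤ N ^ 2 := by
        intro hm
        rcases hNVE _ _ hQ₀ with h | h
        · have h7 := h4 hm h
          rw [← h2, h, one_mul] at h7
          exact h7
        · have h7 : 3 * (∏ i, N'' i) ^ 2 ≤ N' ^ 2 := by
            rw [← h2, mul_pow]
            have h8 : (3 : ℝ) ≤ N₀ ^ 2 := by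
              rw [← hs3sq]
              exact pow_le_pow_left₀ hs3.le h 2
            have h9 : 0 ≤ (∏ i, N'' i) ^ 2 := sq_nonneg _
            nlinarith
          nlinarith
      have := (hNV2 N m N'' l hNs3 hi3 h5).1 hp2 hm1
      linarith
  · -- heavy
    have hN₁1 : 1 ≤ N₁ := hc₁.1
    have hNs3 : Real.sqrt 3 ≤ N := by
      rcases hNVE N _ hV with h | h
      · exfalso
        linarith
      · exact h
    have hN₁' : N₁ ≤ N - 1 / 5 := by linarith
    have hcc : CC phi D S i0 (eta S) := ⟨hD, htwo, hRS, hi0, ((hMV Eis).1 N₁ _ hc₁).1⟩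
    obtain ⟨m, N'', l, h1, h2, h3, h4⟩ := (hCLO Eis P L phi D S i0 (eta S) hi0 hcc).1 N₁ hc₁ bVS
      bVS_mono one_le_bVS (fun x hx => hB x (le_trans hx hN₁'))
    rw [hMQ] at h3
    have hi3 : ∀ i, Real.sqrt 3 ≤ N'' i := by
      intro i
      obtain ⟨hi1, Q', hQ'⟩ := h1 i
      rcases hNVE _ _ hQ' with h | h
      · linarith
      · exact h
    have h5 := (hNV2 N m N'' l hNs3 hi3 h3).2 (le_trans h2 hN₁)
    have h6 : (Module.finrank ℤ L : ℝ) =
        rk (supp (cl (co phi i0) S hi0 (eta S) D)) + 1 + g := by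
      exact_mod_cast hdim i0 hi0
    have h7 : (g : ℝ) ≤ 4 := by
      rw [hMQ] at hM
      have h8 : (g : ℝ) < 5 := by
        by_contra hcon
        push Not at hcon
        have hN0 : 0 < N := by linarith
        nlinarith
      have h9 : g < 5 := by exact_mod_cast h8
      have h10 : g ≤ 4 := by omega
      exact_mod_cast h10
    linarith

end Pool.Agent.B5.H82
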