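import Pool.Agent.Lib.MP_b5021c_nt.IfaceS4
import Pool.Agent.Lib.MP_b5021c_nt.H67.Pun2
import Pool.Agent.Lib.MP_b5021c_nt.B.H82.Jv2

/-!
# Board b5, row U_JV3: the induction step in class V (final form)
-/

namespace Pool.Agent.B5.H82

open Pool.Agent.B5
open Pool.Agent.B5.H67 (PunS2)
open Pool.Agent.MP_b5021c_nt (Eis)

theorem bV3_mono : Monotone bV3 := by
  intro x y hxy
  unfold bV3 bVL
  have h1 : max 1 x ≤ max 1 y := max_le_max le_rfl hxy
  refine min_le_min (max_le_max le_rfl (by linarith)) (by linarith)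

theorem one_le_bV3 (x : ℝ) : 1 ≤ bV3 x := by
  unfold bV3 bVL
  have h1 : (1 : ℝ) ≤ max 1 x := le_max_left _ _
  exact le_min (le_max_left _ _) (by linarith)

theorem bV3_le {x : ℝ} (hx : 1 ≤ x) : bV3 x ≤ 2 * x + 4800 := by
  unfold bV3
  rw [max_eq_right hx]
  exact min_le_right _ _

theorem jv3 (hE2 : E2S) (hNVE : NVES) (hFL : Fl2S) (hLV2 : Lv2S) (hCLX : ClxS) (hCLO : CLOS)
    (hMV : MVS) (hPUN : PunS2) (hADJ : AdjSyS) (hEvR : EvRS) (hNV3 : Nv3S) : Jv3S := by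
  intro P L _ _ _ _ _ phi D N hN200 hD hV hthree hB
  have htwo : 2 ≤ Module.finrank ℤ L := by omega
  obtain ⟨hz, -, -, -, -, hray⟩ := hE2 Eis P L phi D hD htwo
  have hMQ : M (D.coeff 0) = N := (((hMV Eis).1 N _ hV)).2
  have hNpos : (0 : ℝ) < N := by linarith
  have hs3 : (0 : ℝ) < Real.sqrt 3 := Real.sqrt_pos.2 (by norm_num)
  have hs3sq : Real.sqrt 3 ^ 2 = 3 := Real.sq_sqrt (by norm_num)
  -- the loads
  have hex : ∀ S : L, ∃ e : (RO Eis)ˣ, Ray D S →
      ((∃ e₂ : (RO Eis)ˣ, Adj e e₂ ∧ 1 / N ≤ ‖mn ((e : RO Eis) * D.coeff S) (D.coeff 0)‖ ∧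
        ‖mn ((e : RO Eis) * D.coeff S) (D.coeff 0)‖ ≤ 1 / 4 ∧
        ∀ e' : (RO Eis)ˣ, (e' = e ∨ e' = e₂) →
          ∃ N' : ℝ, N' ≤ N - 1 / 5 ∧ (⌊2 * N'⌋ : ℝ) + 1 ≤ 2 * N ∧
            ClassV N' (D.coeff 0 + (e' : RO Eis) * D.coeff S)) ∨
      (N / 10 < M (D.coeff S) ∧
        ∃ N' : ℝ, N' ≤ 23 / 25 * N ∧ ClassV N' (D.coeff 0 + (e : RO Eis) * D.coeff S))) := by
    intro S
    by_cases hS : Ray D S
    · rcases hLV2 N (D.coeff 0) (D.coeff S) hN200 hV hS.1 hz (hray S hS).1 (hray S hS).2 with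
        ⟨e₁, e₂, h12, h1, h2, h3⟩ | ⟨h0, e₁, N', hN', h1⟩
      · exact ⟨e₁, fun _ => Or.inl ⟨e₂, h12, h1, h2, h3⟩⟩
      · exact ⟨e₁, fun _ => Or.inr ⟨h0, N', hN', h1⟩⟩
    · exact ⟨1, fun h => absurd h hS⟩
  choose eta heta using hex
  have hne : ∀ S, Ray D S → D.coeff 0 + (eta S : RO Eis) * D.coeff S ≠ 0 := by
    intro S hS
    rcases heta S hS with ⟨e₂, -, -, -, h⟩ | ⟨-, N', -, h⟩
    · obtain ⟨N', -, -, h'⟩ := h (eta S) (Or.inl rfl)
      exact ((hMV Eis).1 N' _ h').1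
    · exact ((hMV Eis).1 N' _ h).1
  obtain ⟨S, g, hRS, hdim, hM, -, hother⟩ := hFL Eis P L phi D eta hD htwo hne
  obtain ⟨i0, hi0⟩ := exists_pivot hD.inj hRS.2.1 (hD.bin _ hRS.1)
  rcases heta S hRS with ⟨e₂, hadj, hr1, hr2, hlo⟩ | ⟨hMF, N₁, hN₁, hc₁⟩
  · -- light
    have hne₂ : D.coeff 0 + (e₂ : RO Eis) * D.coeff S ≠ 0 := by
      obtain ⟨N', -, -, h'⟩ := hlo e₂ (Or.inr rfl)
      exact ((hMV Eis).1 N' _ h').1
    have hfull : Module.finrank ℤ L = rk (supp (cl (co phi i0) S hi0 (eta S) D)) + 1 ∨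
        Module.finrank ℤ L = rk (supp (cl (co phi i0) S hi0 e₂ D)) + 1 := by
      rcases Nat.eq_zero_or_pos g with hg | hg
      · left
        have h7 := hdim i0 hi0
        rw [hg] at h7
        simpa using h7
      · right
        exact hother hg e₂ (fun h => adj_ne hadj h.symm) i0 hi0
    obtain ⟨e, he, hcV, -⟩ := hCLX Eis P L phi D S i0 (eta S) e₂ hi0 hD hthree hRS
      (hne S hRS) hne₂ (Or.inl ⟨hadj, hr2⟩) hfull
    obtain ⟨N', hN'N, hfl, hN'V⟩ := hlo e he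
    have hN'1 : 1 ≤ N' := hN'V.1
    rcases hcV N' hN'V bV3 bV3_mono one_le_bV3 (fun x hx => hB x (le_trans hx hN'N)) with
      h2 | ⟨hpw, h4⟩ | ⟨m, N'', N₀, l, h1, ⟨Q₀, hQ₀⟩, h2, h4, h5, h6⟩
    · -- first
      have h3 := bV3_le hN'1
      have h5 : ((Module.finrank ℤ L : ℤ) - 4801 : ℤ) ≤ ⌊2 * N'⌋ := by
        rw [Int.le_floor]
        push_cast
        linarith
      have h6 : ((Module.finrank ℤ L : ℤ) - 4801 : ℝ) ≤ (⌊2 * N'⌋ : ℝ) := by
        exact_mod_cast h5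
      push_cast at h6
      linarith
    · -- pure factor
      have h3 := bV3_le hN'1
      have hmn : ‖mn ((e : RO Eis) * D.coeff S) (D.coeff 0)‖ =
          ‖mn ((eta S : RO Eis) * D.coeff S) (D.coeff 0)‖ := by
        rcases he with rfl | rfl
        · rfl
        · exact ((hADJ Eis (eta S) e hadj).2.2 _ _).symm
      have h5 := hPUN Eis ((e : RO Eis) * D.coeff S) (D.coeff 0) hz
        (((hMV Eis).1 N' _ hN'V).1) (by
          intro z
          have h6 : ‖evR z ((e : RO Eis) * D.coeff S)‖ = ‖evR z (D.coeff S)‖ := by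
            rw [map_mul, norm_mul, (hEvR Eis).2.1 z _ e.isUnit, one_mul]
          rw [h6]
          exact hpw z)
      rw [((hMV Eis).1 N' _ hN'V).2, hMQ, hmn] at h5
      have h7 : N * (1 - ‖mn ((eta S : RO Eis) * D.coeff S) (D.coeff 0)‖) ≤ N * (1 - 1 / N) :=
        mul_le_mul_of_nonneg_left (by linarith) hNpos.le
      have h8 : N * (1 - 1 / N) = N - 1 := by
        field_simp
      linarith
    · -- rich
      rw [hMQ] at h4 h5
      have hi3 : ∀ i, Real.sqrt 3 ≤ N'' i := by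
        intro i
        obtain ⟨hi1, Q', hQ'⟩ := h1 i
        rcases hNVE _ _ hQ' with h | h
        · linarith
        · exact h
      have hp0 : 0 < ∏ i, N'' i := Finset.prod_pos fun i _ => lt_of_lt_of_le hs3 (hi3 i)
      have hN₀1 : 1 ≤ N₀ := hQ₀.1
      have hple : ∏ i, N'' i ≤ N' := by
        rw [← h2]
        nlinarith
      have hpN : ∏ i, N'' i ≤ N := by linarith
      have hm1 : m = 1 → 2 * (∏ i, N'' i) ^ 2 ≤ N ^ 2 := by
        intro hm
        rcases hNVE _ _ hQ₀ with h | h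
        · have h7 := h4 hm h
          rw [← h2, h, one_mul] at h7
          exact h7
        · have h7 : 3 * (∏ i, N'' i) ^ 2 ≤ N' ^ 2 := by
            rw [← h2, mul_pow]
            have h8 : (3 : ℝ) ≤ N₀ ^ 2 := by
              rw [← hs3sq]
              exact pow_le_pow_left₀ hs3.le h 2
            have h9 : 0 ≤ (∏ i, N'' i) ^ 2 := sq_nonneg _
            nlinarith
          have h10 : N' ^ 2 ≤ N ^ 2 := pow_le_pow_left₀ (by linarith) (by linarith) 2
          nlinarith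
      have := (hNV3 N m N'' l hN200 hi3 h5).1 hpN hm1
      linarith
  · -- heavy
    have hN₁' : N₁ ≤ N - 1 / 5 := by linarith
    have hcc : CC phi D S i0 (eta S) := ⟨hD, htwo, hRS, hi0, ((hMV Eis).1 N₁ _ hc₁).1⟩
    obtain ⟨m, N'', l, h1, h2, h3, h4⟩ := (hCLO Eis P L phi D S i0 (eta S) hi0 hcc).1 N₁ hc₁ bV3
      bV3_mono one_le_bV3 (fun x hx => hB x (le_trans hx hN₁'))
    rw [hMQ] at h3
    have hi3 : ∀ i, Real.sqrt 3 ≤ N'' i := by
      intro i
      obtain ⟨hi1, Q', hQ'⟩ := h1 i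
      rcases hNVE _ _ hQ' with h | h
      · linarith
      · exact h
    have h5 := (hNV3 N m N'' l hN200 hi3 h3).2 (le_trans h2 hN₁)
    have h6 : (Module.finrank ℤ L : ℝ) =
        rk (supp (cl (co phi i0) S hi0 (eta S) D)) + 1 + g := by
      exact_mod_cast hdim i0 hi0
    have h7 : (g : ℝ) ≤ 10 := by
      rw [hMQ] at hM
      have h8 : (g : ℝ) < 11 := by
        by_contra hcon
        push Not at hcon
        nlinarith
      have h9 : g < 11 := by exact_mod_cast h8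
      have h10 : g ≤ 10 := by omega
      exact_mod_cast h10
    linarith

end Pool.Agent.B5.H82
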